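import Pool.Agent.H47.B1.H91.EHA.SwI

/-!
# Small conductors

`TT N 0 ψ = ∑_{n≤N} Λ(n)ψ(n) om(n/N)`; Abel summation (`om` is Lipschitz, total variation `≤ 8/27`) and
`siegel_walfisz (B) (k')` for the partial sums up to `m ≥ √x` (`log m ≥ (log x)/2`, so `c ≤ (log x)^B ≤ (log m)^{B+1}`),
trivial bound `m log m` for `m < √x`.  `(1/φ(c)) #Pch c ≤ 1`, at most `(log x)^B` values of `c`.
-/

set_option autoImplicit false

namespace Pool.Agent.H91.EHA

open Finset
open Pool.Agent.H91.PK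

private theorem chF_card {r : ℕ} (hr : 1 ≤ r) : ((Pch r).card : ℝ) ≤ r.totient := by
  have : NeZero r := ⟨by omega⟩
  have h1 : (Pch r).card ≤ Fintype.card (DirichletCharacter ℂ r) := card_le_univ _
  have h2 : Fintype.card (DirichletCharacter ℂ r) = r.totient := by
    rw [← Nat.card_eq_fintype_card]
    exact DirichletCharacter.card_eq_totient_of_hasEnoughRootsOfUnity ℂ r
  rw [h2] at h1
  exact_mod_cast h1

private theorem chF_parts (a g : ℕ → ℂ) (M : ℕ) :
    ∑ n ∈ Icc 1 M, a n * g n = (∑ n ∈ Icc 1 M, a n) * g M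
      + ∑ m ∈ range M, (∑ n ∈ Icc 1 m, a n) * (g m - g (m + 1)) := by
  induction M with
  | zero => simp
  | succ M ih =>
    rw [Finset.sum_Icc_succ_top (by omega), Finset.sum_Icc_succ_top (by omega), ih,
      Finset.sum_range_succ]
    ring

private theorem chF_abel (N : ℕ) (hN : 1 ≤ N) (a : ℕ → ℂ) (K : ℝ)
    (hK : ∀ m : ℕ, m ≤ N → ‖∑ n ∈ Icc 1 m, a n‖ ≤ K) :
    ‖∑ n ∈ Icc 1 N, a n * ((om ((n : ℝ) / N) : ℝ) : ℂ)‖ ≤ K := by
  have hN0 : (0 : ℝ) < N := by exact_mod_cast hN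
  have hK0 : 0 ≤ K := le_trans (norm_nonneg _) (hK N le_rfl)
  rw [chF_parts a (fun n => ((om ((n : ℝ) / N) : ℝ) : ℂ)) N]
  have h1 : om ((N : ℝ) / N) = 0 := by
    rw [div_self hN0.ne']; exact om_eq_zero le_rfl
  simp only [h1]
  rw [Complex.ofReal_zero, mul_zero, zero_add]
  have h2 : ∀ m ∈ range N, ‖(∑ n ∈ Icc 1 m, a n) *
      (((om ((m : ℝ) / N) : ℝ) : ℂ) - ((om (((m + 1 : ℕ) : ℝ) / N) : ℝ) : ℂ))‖ ≤ K * (1 / N) := by
    intro m hm
    rw [mem_range] at hm
    rw [norm_mul, ← Complex.ofReal_sub, Complex.norm_real, Real.norm_eq_abs]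
    refine mul_le_mul (hK m hm.le) ?_ (abs_nonneg _) hK0
    refine (om_lip _ _).trans ?_
    rw [← sub_div, abs_div, abs_of_pos hN0]
    gcongr
    push_cast
    rw [show (m : ℝ) - (m + 1) = -1 by ring]
    simp
  calc _ ≤ ∑ m ∈ range N, ‖(∑ n ∈ Icc 1 m, a n) *
      (((om ((m : ℝ) / N) : ℝ) : ℂ) - ((om (((m + 1 : ℕ) : ℝ) / N) : ℝ) : ℂ))‖ := norm_sum_le _ _
    _ ≤ ∑ m ∈ range N, K * (1 / N) := sum_le_sum h2
    _ = K := by
      rw [sum_const, card_range, nsmul_eq_mul]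
      field_simp

private theorem chF_triv (c : ℕ) (ψ : DirichletCharacter ℂ c) (m : ℕ) :
    ‖∑ n ∈ Icc 1 m, ((Lam n : ℝ) : ℂ) * ψ (n : ZMod c)‖ ≤ m * Real.log m := by
  have h : ∀ n ∈ Icc 1 m, ‖((Lam n : ℝ) : ℂ) * ψ (n : ZMod c)‖ ≤ Real.log m := by
    intro n hn
    rw [mem_Icc] at hn
    rw [norm_mul, Complex.norm_real, Real.norm_eq_abs]
    have h0 : 0 ≤ Lam n := ArithmeticFunction.vonMangoldt_nonneg
    rw [abs_of_nonneg h0]
    have h1 : Lam n ≤ Real.log n := ArithmeticFunction.vonMangoldt_le_log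
    have h2 : Real.log n ≤ Real.log m :=
      Real.log_le_log (by exact_mod_cast hn.1) (by exact_mod_cast hn.2)
    have h3 : ‖ψ (n : ZMod c)‖ ≤ 1 := ψ.norm_le_one _
    calc Lam n * ‖ψ (n : ZMod c)‖ ≤ Lam n * 1 := mul_le_mul_of_nonneg_left h3 h0
      _ ≤ Real.log m := by linarith
  calc _ ≤ ∑ n ∈ Icc 1 m, ‖((Lam n : ℝ) : ℂ) * ψ (n : ZMod c)‖ := norm_sum_le _ _
    _ ≤ ∑ n ∈ Icc 1 m, Real.log m := sum_le_sum h
    _ = m * Real.log m := by
      rw [sum_const, Nat.card_Icc, nsmul_eq_mul]; simp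

theorem small_cond' (B k : ℕ) : ∃ x0 : ℕ, ∀ x : ℕ, x0 ≤ x → ∀ N : ℕ, 1 ≤ N → N ≤ 2 * x →
    ∑ c ∈ Ioc 1 ⌊Real.log x ^ B⌋₊, (1 / (c.totient : ℝ)) *
        ∑ ψ ∈ Pch c, ‖TT N 0 (fun n => ψ (n : ZMod c))‖ ≤ x / Real.log x ^ k := by
  obtain ⟨C, hC, hSW⟩ := siegel_walfisz (B + 1) (k + B + 1)
  have hlog : Filter.Tendsto (fun x : ℕ => Real.log (x : ℝ)) Filter.atTop Filter.atTop :=
    Real.tendsto_log_atTop.comp tendsto_natCast_atTop_atTop
  have e1 : ∀ᶠ x : ℕ in Filter.atTop,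
      max (max 2 (2 ^ (B + 1))) (C * 2 ^ (k + B + 2)) ≤ Real.log (x : ℝ) :=
    hlog.eventually_ge_atTop _
  have e2 : ∀ᶠ x : ℕ in Filter.atTop, Real.log (x : ℝ) ^ (2 * (k + B + 1)) ≤ (x : ℝ) := by
    have h := (Real.isLittleO_pow_log_id_atTop (n := 2 * (k + B + 1))).bound (c := 1) one_pos
    have h' := tendsto_natCast_atTop_atTop (R := ℝ) |>.eventually h
    filter_upwards [h'] with x hx
    simp only [id_eq, one_mul] at hx
    rw [Real.norm_eq_abs, Real.norm_eq_abs, Nat.abs_cast] at hx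
    exact (le_abs_self _).trans hx
  obtain ⟨x0, hx0⟩ := Filter.eventually_atTop.mp (e1.and e2)
  refine ⟨x0, ?_⟩
  intro x hx N hN hN2
  obtain ⟨hL, hxL⟩ := hx0 x hx
  set L : ℝ := Real.log x with hLdef
  have hL2 : 2 ≤ L := le_trans (le_trans (le_max_left _ _) (le_max_left _ _)) hL
  have hLB : (2 : ℝ) ^ (B + 1) ≤ L := le_trans (le_trans (le_max_right _ _) (le_max_left _ _)) hL
  have hLC : C * 2 ^ (k + B + 2) ≤ L := le_trans (le_max_right _ _) hL
  have hL0 : 0 < L := by linarith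
  have hxpos : (0 : ℝ) < x := lt_of_lt_of_le (by positivity) hxL
  have hx1 : 1 ≤ x := by
    have : (0 : ℝ) < x := hxpos
    exact_mod_cast this
  set K : ℝ := x / L ^ (k + B) with hKdef
  have hK0 : 0 ≤ K := by positivity
  -- the partial sums
  have hpart : ∀ c ∈ Ioc 1 ⌊L ^ B⌋₊, ∀ ψ ∈ Pch c, ∀ m : ℕ, m ≤ N →
      ‖∑ n ∈ Icc 1 m, ((Lam n : ℝ) : ℂ) * ψ (n : ZMod c)‖ ≤ K := by
    intro c hc ψ hψ m hm
    rw [mem_Ioc] at hc
    rw [mem_Pch] at hψ
    have hcB : (c : ℝ) ≤ L ^ B := by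
      refine le_trans (by exact_mod_cast hc.2) (Nat.floor_le (by positivity))
    by_cases hmx : m ^ 2 ≤ x
    · refine (chF_triv c ψ m).trans ?_
      rcases Nat.eq_zero_or_pos m with hm0 | hm0
      · subst hm0; simpa using hK0
      have hmR : (0 : ℝ) < m := by exact_mod_cast hm0
      have hmx' : (m : ℝ) ^ 2 ≤ x := by exact_mod_cast hmx
      have hm1 : (1 : ℝ) ≤ m := by exact_mod_cast hm0
      have hlm : Real.log m ≤ L := by
        apply Real.log_le_log hmR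
        nlinarith
      have hlm0 : 0 ≤ Real.log m := Real.log_nonneg hm1
      rw [hKdef, le_div_iff₀ (by positivity)]
      have h1 : m * Real.log m * L ^ (k + B) ≤ m * L ^ (k + B + 1) := by
        rw [pow_succ, mul_assoc]
        have : Real.log m * L ^ (k + B) ≤ L * L ^ (k + B) :=
          mul_le_mul_of_nonneg_right hlm (by positivity)
        nlinarith
      refine h1.trans ?_
      have h2 : (L ^ (k + B + 1)) ^ 2 ≤ x := by
        rw [← pow_mul, mul_comm (k + B + 1) 2]; exact hxL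
      have h3 : 0 ≤ L ^ (k + B + 1) := by positivity
      nlinarith [sq_nonneg ((m : ℝ) - L ^ (k + B + 1))]
    · rw [not_le] at hmx
      have hmx' : (x : ℝ) < (m : ℝ) ^ 2 := by exact_mod_cast hmx
      have hm0 : 0 < m := by
        rcases Nat.eq_zero_or_pos m with h | h
        · subst h; simp at hmx
        · exact h
      have hmR : (0 : ℝ) < m := by exact_mod_cast hm0
      have hlm : L / 2 ≤ Real.log m := by
        have h1 : L ≤ Real.log ((m : ℝ) ^ 2) := Real.log_le_log hxpos hmx'.le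
        rw [Real.log_pow] at h1
        push_cast at h1
        linarith
      have hlm0 : 0 < Real.log m := by linarith
      have hm2 : 2 ≤ m := by
        by_contra h
        have h1 : m = 1 := by omega
        rw [h1] at hlm0
        simp at hlm0
      have hcm : (c : ℝ) ≤ Real.log m ^ (B + 1) := by
        refine hcB.trans ?_
        have h1 : L ≤ 2 * Real.log m := by linarith
        calc L ^ B ≤ (2 * Real.log m) ^ B := pow_le_pow_left₀ hL0.le h1 B
          _ = 2 ^ B * Real.log m ^ B := by rw [mul_pow]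
          _ ≤ Real.log m * Real.log m ^ B := by
            refine mul_le_mul_of_nonneg_right ?_ (by positivity)
            have : (2 : ℝ) ^ (B + 1) = 2 * 2 ^ B := by rw [pow_succ]; ring
            linarith
          _ = Real.log m ^ (B + 1) := by rw [pow_succ]; ring
      refine (hSW c (by omega) ψ hψ m hm2 hcm).trans ?_
      have hm2x : (m : ℝ) ≤ 2 * x := by exact_mod_cast hm.trans hN2
      have hd : (L / 2) ^ (k + B + 1) ≤ Real.log m ^ (k + B + 1) :=
        pow_le_pow_left₀ (by positivity) hlm _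
      calc C * m / Real.log m ^ (k + B + 1) ≤ C * (2 * x) / (L / 2) ^ (k + B + 1) := by
            gcongr
        _ = (C * 2 ^ (k + B + 2)) * x / (L ^ (k + B) * L) := by
            rw [div_pow, ← pow_succ]
            field_simp
            ring
        _ ≤ L * x / (L ^ (k + B) * L) := by gcongr
        _ = K := by rw [hKdef]; field_simp
  have hTT : ∀ c ∈ Ioc 1 ⌊L ^ B⌋₊, ∀ ψ ∈ Pch c, ‖TT N 0 (fun n => ψ (n : ZMod c))‖ ≤ K := by
    intro c hc ψ hψ
    have h := chF_abel N hN (fun n => ((Lam n : ℝ) : ℂ) * ψ (n : ZMod c)) K (hpart c hc ψ hψ)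
    have he : TT N 0 (fun n => ψ (n : ZMod c)) = ∑ n ∈ Icc 1 N,
        (((Lam n : ℝ) : ℂ) * ψ (n : ZMod c)) * ((om ((n : ℝ) / N) : ℝ) : ℂ) := by
      unfold TT W Lam
      refine sum_congr rfl fun n _ => ?_
      rw [pow_zero, mul_one, mul_assoc]
    rw [he]
    exact h
  have hc1 : ∀ c ∈ Ioc 1 ⌊L ^ B⌋₊, (1 / (c.totient : ℝ)) *
      ∑ ψ ∈ Pch c, ‖TT N 0 (fun n => ψ (n : ZMod c))‖ ≤ K := by
    intro c hc
    have hcc := mem_Ioc.mp hc
    have hφ : (0 : ℝ) < c.totient := by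
      exact_mod_cast Nat.totient_pos.mpr (by omega)
    have h1 : ∑ ψ ∈ Pch c, ‖TT N 0 (fun n => ψ (n : ZMod c))‖ ≤ c.totient * K := by
      calc _ ≤ (Pch c).card • K := sum_le_card_nsmul _ _ _ (hTT c hc)
        _ = (Pch c).card * K := nsmul_eq_mul _ _
        _ ≤ _ := mul_le_mul_of_nonneg_right (chF_card (by omega)) hK0
    calc _ ≤ (1 / (c.totient : ℝ)) * (c.totient * K) :=
          mul_le_mul_of_nonneg_left h1 (by positivity)
      _ = K := by field_simp
  calc _ ≤ ∑ c ∈ Ioc 1 ⌊L ^ B⌋₊, K := sum_le_sum hc1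
    _ = ((⌊L ^ B⌋₊ - 1 : ℕ) : ℝ) * K := by rw [sum_const, Nat.card_Ioc, nsmul_eq_mul]
    _ ≤ L ^ B * K := by
      refine mul_le_mul_of_nonneg_right ?_ hK0
      refine le_trans ?_ (Nat.floor_le (by positivity : (0:ℝ) ≤ L ^ B))
      exact_mod_cast Nat.sub_le _ _
    _ = x / L ^ k := by
      rw [hKdef, pow_add]
      field_simp

end Pool.Agent.H91.EHA
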