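import Pool.Agent.H47.B1.H91.EHA.ChF
import Pool.Agent.H47.B1.M25
import Pool.Agent.H47.B1.M26

/-!
# The smoothed statement, range `Q² ≤ H x^{1-ε}`, for arbitrary sets of residue classes

Adapted from `TwoA` (by helper45).
-/

set_option autoImplicit false

namespace Pool.Agent.H91.EHA

open Finset
open Pool.Agent.H91.PK

/-- A family of residues: at most `H` for each modulus, small multiplicities on average. -/
def Fam (x Q : ℕ) (ε H : ℝ) (S : ℕ → Finset ℕ) : Prop :=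
  (∀ q ∈ Ioc Q (2 * Q), ((S q).card : ℝ) ≤ H) ∧
    ∑ q ∈ Ioc Q (2 * Q), ((((S q) ×ˢ (S q)).filter (fun p => p.1 ≡ p.2 [MOD q])).card : ℝ)
      ≤ (Q * H + H ^ 2) * (x : ℝ) ^ (ε / 8)

private theorem gtwoA_ev (K s : ℝ) (n : ℕ) (hs : 0 < s) :
    ∀ᶠ x : ℕ in Filter.atTop, K * Real.log x ^ n ≤ (x : ℝ) ^ s := by
  have h1 : (fun x : ℝ => Real.log x ^ (n : ℝ)) =o[Filter.atTop] fun x => x ^ s :=
    isLittleO_log_rpow_rpow_atTop _ hs
  have h2 := h1.comp_tendsto tendsto_natCast_atTop_atTop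
  have h3 := h2.bound (show (0 : ℝ) < 1 / (|K| + 1) by positivity)
  filter_upwards [h3, Filter.eventually_ge_atTop 1] with x hx hx1
  have hx1' : (1 : ℝ) ≤ x := by exact_mod_cast hx1
  have hlog : 0 ≤ Real.log x := Real.log_nonneg hx1'
  simp only [Function.comp_apply, Real.rpow_natCast, Real.norm_eq_abs] at hx
  rw [abs_of_nonneg (pow_nonneg hlog n), abs_of_nonneg (Real.rpow_nonneg (by linarith) s)] at hx
  have h4 : 0 ≤ Real.log x ^ n := pow_nonneg hlog n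
  calc K * Real.log x ^ n ≤ (|K| + 1) * Real.log x ^ n :=
        mul_le_mul_of_nonneg_right (by linarith [le_abs_self K]) h4
    _ ≤ (|K| + 1) * (1 / (|K| + 1) * (x : ℝ) ^ s) :=
        mul_le_mul_of_nonneg_left hx (by positivity)
    _ = (x : ℝ) ^ s := by
        rw [← mul_assoc, mul_one_div_cancel (by positivity), one_mul]

/-- The part of the character expansion with the characters in `X`. -/
private noncomputable def gtwoA_E (N q : ℕ) (X : Finset (DirichletCharacter ℂ q)) (a : ℕ) : ℝ :=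
  ‖(1 / (q.totient : ℂ)) * ∑ χ ∈ X, χ⁻¹ (a : ZMod q) * TT N 0 (fun n => χ (n : ZMod q))‖

private theorem gtwoA_split (N q a D : ℕ) (hq : 1 ≤ q) (ha : Nat.Coprime a q) :
    |Eom N q a| ≤ gtwoA_E N q ((Nch q).filter (fun χ => χ.conductor ≤ D)) a +
      gtwoA_E N q ((Nch q).filter (fun χ => D < χ.conductor)) a := by
  have h1 : |Eom N q a| = ‖((Eom N q a : ℝ) : ℂ)‖ := by
    rw [Complex.norm_real, Real.norm_eq_abs]
  have h2 : (Nch q).filter (fun χ => D < χ.conductor) =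
      (Nch q).filter (fun χ => ¬ χ.conductor ≤ D) := by
    apply Finset.filter_congr
    intro χ _
    rw [not_le]
  rw [h1, Eom_eq N q a hq ha, h2, ← Finset.sum_filter_add_sum_filter_not (Nch q)
    (fun χ => χ.conductor ≤ D), mul_add]
  exact norm_add_le _ _

private theorem gtwoA_E_nonneg (N q : ℕ) (X : Finset (DirichletCharacter ℂ q)) (a : ℕ) :
    0 ≤ gtwoA_E N q X a := norm_nonneg _

private theorem gtwoA_E_le (N q : ℕ) (X : Finset (DirichletCharacter ℂ q)) (a : ℕ) :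
    gtwoA_E N q X a ≤
      (1 / (q.totient : ℝ)) * ∑ χ ∈ X, ‖TT N 0 (fun n => χ (n : ZMod q))‖ := by
  unfold gtwoA_E
  rw [norm_mul]
  have h1 : ‖(1 / (q.totient : ℂ))‖ = 1 / (q.totient : ℝ) := by
    rw [norm_div, norm_one, Complex.norm_natCast]
  rw [h1]
  refine mul_le_mul_of_nonneg_left ?_ (by positivity)
  refine (norm_sum_le _ _).trans (Finset.sum_le_sum fun χ _ => ?_)
  rw [norm_mul]
  calc ‖χ⁻¹ (a : ZMod q)‖ * ‖TT N 0 (fun n => χ (n : ZMod q))‖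
      ≤ 1 * ‖TT N 0 (fun n => χ (n : ZMod q))‖ :=
        mul_le_mul_of_nonneg_right (DirichletCharacter.norm_le_one _ _) (norm_nonneg _)
    _ = _ := one_mul _

private theorem gtwoA_small (N Q D : ℕ) (H : ℝ) (S : ℕ → Finset ℕ)
    (hS : ∀ q ∈ Ioc Q (2 * Q), ((S q).card : ℝ) ≤ H) :
    ∑ q ∈ Ioc Q (2 * Q), ∑ a ∈ (S q).filter (fun a => Nat.Coprime a q),
        gtwoA_E N q ((Nch q).filter (fun χ => χ.conductor ≤ D)) a ≤
      H * ∑ q ∈ Ioc Q (2 * Q), (1 / (q.totient : ℝ)) *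
        ∑ χ ∈ (Nch q).filter (fun χ => χ.conductor ≤ D), ‖TT N 0 (fun n => χ (n : ZMod q))‖ := by
  rw [Finset.mul_sum]
  refine Finset.sum_le_sum fun q hq => ?_
  have h1 : (((S q).filter (fun a => Nat.Coprime a q)).card : ℝ) ≤ H := by
    refine le_trans ?_ (hS q hq)
    exact_mod_cast Finset.card_filter_le _ _
  refine (Finset.sum_le_card_nsmul _ _ _ fun a _ => gtwoA_E_le N q _ a).trans ?_
  rw [nsmul_eq_mul]
  exact mul_le_mul_of_nonneg_right h1 (by positivity)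

/-- Cauchy-Schwarz with multiplicities. -/
private theorem gtwoA_msq (N Q D : ℕ) (hQ : 1 ≤ Q) (S : ℕ → Finset ℕ) :
    (∑ q ∈ Ioc Q (2 * Q), ∑ a ∈ (S q).filter (fun a => Nat.Coprime a q),
        gtwoA_E N q ((Nch q).filter (fun χ => D < χ.conductor)) a) ^ 2 ≤
      (∑ q ∈ Ioc Q (2 * Q),
        ((((S q) ×ˢ (S q)).filter (fun p => p.1 ≡ p.2 [MOD q])).card : ℝ)) *
      ∑ q ∈ Ioc Q (2 * Q), (1 / (q.totient : ℝ)) *
        ∑ χ ∈ (Nch q).filter (fun χ => D < χ.conductor),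
          ‖TT N 0 (fun n => χ (n : ZMod q))‖ ^ 2 := by
  set E : ℕ → ℕ → ℝ := fun q a => gtwoA_E N q ((Nch q).filter (fun χ => D < χ.conductor)) a
    with hE
  set m : ℕ → ℕ → ℝ := fun q r =>
    ((((S q).filter (fun a => Nat.Coprime a q)).filter (fun a => a % q = r)).card : ℝ) with hm
  have h0 : ∀ q ∈ Ioc Q (2 * Q), ∑ a ∈ (S q).filter (fun a => Nat.Coprime a q), E q a =
      ∑ r ∈ (range q).filter (fun a => Nat.Coprime a q), m q r * E q r := by
    intro q hq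
    have hq1 : 1 ≤ q := by
      rw [Finset.mem_Ioc] at hq
      omega
    have h1 : ∀ a, E q a = E q (a % q) := by
      intro a
      simp only [hE]
      unfold gtwoA_E
      rw [ZMod.natCast_mod]
    have hmaps : ∀ a ∈ (S q).filter (fun a => Nat.Coprime a q),
        a % q ∈ (range q).filter (fun a => Nat.Coprime a q) := by
      intro a ha
      rw [Finset.mem_filter] at ha ⊢
      refine ⟨Finset.mem_range.2 (Nat.mod_lt _ hq1), ?_⟩
      show Nat.gcd (a % q) q = 1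
      rw [← Nat.gcd_rec q a, Nat.gcd_comm]
      exact ha.2
    rw [Finset.sum_congr rfl fun a _ => h1 a,
      ← Finset.sum_fiberwise_of_maps_to hmaps (fun a => E q (a % q))]
    refine Finset.sum_congr rfl fun r _ => ?_
    have h3 : ∀ a ∈ ((S q).filter (fun a => Nat.Coprime a q)).filter
        (fun a => a % q = r), E q (a % q) = E q r := by
      intro a ha
      rw [(Finset.mem_filter.1 ha).2]
    rw [Finset.sum_congr rfl h3, Finset.sum_const, nsmul_eq_mul]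
  rw [Finset.sum_congr rfl h0]
  -- Cauchy-Schwarz
  have h4 : (∑ q ∈ Ioc Q (2 * Q), ∑ r ∈ (range q).filter (fun a => Nat.Coprime a q),
      m q r * E q r) ^ 2 ≤
      (∑ q ∈ Ioc Q (2 * Q), ∑ r ∈ (range q).filter (fun a => Nat.Coprime a q), m q r ^ 2) *
      ∑ q ∈ Ioc Q (2 * Q), ∑ r ∈ (range q).filter (fun a => Nat.Coprime a q), E q r ^ 2 := by
    rw [Finset.sum_sigma', Finset.sum_sigma', Finset.sum_sigma']
    exact Finset.sum_mul_sq_le_sq_mul_sq _ _ _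
  refine h4.trans ?_
  have h5 : ∑ q ∈ Ioc Q (2 * Q), ∑ r ∈ (range q).filter (fun a => Nat.Coprime a q),
      E q r ^ 2 = ∑ q ∈ Ioc Q (2 * Q), (1 / (q.totient : ℝ)) *
        ∑ χ ∈ (Nch q).filter (fun χ => D < χ.conductor),
          ‖TT N 0 (fun n => χ (n : ZMod q))‖ ^ 2 := by
    refine Finset.sum_congr rfl fun q hq => ?_
    have hq1 : 1 ≤ q := by
      rw [Finset.mem_Ioc] at hq
      omega
    exact char_msq q hq1 _ (fun χ => TT N 0 (fun n => χ (n : ZMod q)))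
  rw [h5]
  refine mul_le_mul_of_nonneg_right ?_ (Finset.sum_nonneg fun q _ => by positivity)
  refine Finset.sum_le_sum fun q hq => ?_
  -- `∑_r m(r)² ≤` number of congruent pairs
  have h6 : ∀ r ∈ (range q).filter (fun a => Nat.Coprime a q), m q r ^ 2 ≤
      (((((S q) ×ˢ (S q)).filter (fun p => p.1 ≡ p.2 [MOD q])).filter
        (fun p => p.1 % q = r)).card : ℝ) := by
    intro r _
    have h7 : (((S q).filter (fun a => Nat.Coprime a q)).filter (fun a => a % q = r)) ×ˢ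
        (((S q).filter (fun a => Nat.Coprime a q)).filter (fun a => a % q = r)) ⊆
        (((S q) ×ˢ (S q)).filter (fun p => p.1 ≡ p.2 [MOD q])).filter
        (fun p => p.1 % q = r) := by
      intro p hp
      rw [Finset.mem_product, Finset.mem_filter, Finset.mem_filter, Finset.mem_filter,
        Finset.mem_filter] at hp
      rw [Finset.mem_filter, Finset.mem_filter, Finset.mem_product]
      exact ⟨⟨⟨hp.1.1.1, hp.2.1.1⟩, hp.1.2.trans hp.2.2.symm⟩, hp.1.2⟩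
    have h8 := Finset.card_le_card h7
    rw [Finset.card_product] at h8
    simp only [hm]
    calc ((((S q).filter (fun a => Nat.Coprime a q)).filter (fun a => a % q = r)).card : ℝ) ^ 2
        = (((((S q).filter (fun a => Nat.Coprime a q)).filter (fun a => a % q = r)).card *
          (((S q).filter (fun a => Nat.Coprime a q)).filter (fun a => a % q = r)).card : ℕ) : ℝ) := by
            push_cast; ring
      _ ≤ _ := by exact_mod_cast h8
  refine (Finset.sum_le_sum h6).trans ?_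
  have h9 : ∑ r ∈ (range q).filter (fun a => Nat.Coprime a q),
      ((((S q) ×ˢ (S q)).filter (fun p => p.1 ≡ p.2 [MOD q])).filter
        (fun p => p.1 % q = r)).card ≤
      (((S q) ×ˢ (S q)).filter (fun p => p.1 ≡ p.2 [MOD q])).card := by
    rw [← Finset.card_biUnion]
    · refine Finset.card_le_card ?_
      intro p hp
      rw [Finset.mem_biUnion] at hp
      obtain ⟨r, _, hr⟩ := hp
      exact (Finset.mem_filter.1 hr).1
    · intro r _ r' _ hrr'
      rw [Function.onFun, Finset.disjoint_left]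
      intro p hp hp'
      exact hrr' ((Finset.mem_filter.1 hp).2.symm.trans (Finset.mem_filter.1 hp').2)
  exact_mod_cast h9

private theorem gtwoA_S (f : ℕ → ℝ) (hf : ∀ c, 0 ≤ f c) (M D : ℕ) :
    ∑ c ∈ Ioc 1 D, f c ≤ ∑ c ∈ Ioc 1 M, f c + ∑ c ∈ Ioc M D, f c := by
  rw [← Finset.sum_filter_add_sum_filter_not (Ioc 1 D) (fun c => c ≤ M)]
  refine add_le_add (Finset.sum_le_sum_of_subset_of_nonneg ?_ fun i _ _ => hf i)
    (Finset.sum_le_sum_of_subset_of_nonneg ?_ fun i _ _ => hf i)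
  · intro c hc
    rw [Finset.mem_filter, Finset.mem_Ioc] at hc
    exact Finset.mem_Ioc.2 ⟨hc.1.1, hc.2⟩
  · intro c hc
    rw [Finset.mem_filter, Finset.mem_Ioc] at hc
    exact Finset.mem_Ioc.2 ⟨not_le.1 hc.2, hc.1.2⟩

/-- The numerical inequality behind the large conductors. -/
private theorem gtwoA_num (X H Q θ ε : ℝ) (hX : 1 ≤ X) (hQ0 : 0 ≤ Q) (hQ : Q ≤ X ^ θ)
    (hH : 1 ≤ H) (hQH : Q ^ 2 ≤ H * X ^ (1 - ε)) (hε : 0 < ε) (hε2 : ε ≤ 1 / 2)
    (hεθ : ε ≤ 1 - θ) :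
    (H + Q) * (X ^ (1 / 2 + ε / 4) + Q) * X ^ (ε / 8) ≤ 4 * (H * X ^ (1 - ε / 8)) := by
  have hX0 : 0 < X := by linarith
  have hH0 : 0 ≤ H := by linarith
  have hmul : ∀ a b : ℝ, X ^ a * X ^ b = X ^ (a + b) := fun a b => (Real.rpow_add hX0 a b).symm
  have hmono : ∀ a b : ℝ, a ≤ b → X ^ a ≤ X ^ b := fun a b h =>
    Real.rpow_le_rpow_of_exponent_le hX h
  have h1 : H * X ^ (1 / 2 + ε / 4) * X ^ (ε / 8) ≤ H * X ^ (1 - ε / 8) := by
    rw [mul_assoc, hmul]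
    exact mul_le_mul_of_nonneg_left (hmono _ _ (by linarith)) hH0
  have h2 : H * Q * X ^ (ε / 8) ≤ H * X ^ (1 - ε / 8) := by
    rw [mul_assoc]
    refine mul_le_mul_of_nonneg_left ?_ hH0
    calc Q * X ^ (ε / 8) ≤ X ^ θ * X ^ (ε / 8) :=
          mul_le_mul_of_nonneg_right hQ (Real.rpow_nonneg hX0.le _)
      _ = X ^ (θ + ε / 8) := hmul _ _
      _ ≤ X ^ (1 - ε / 8) := hmono _ _ (by linarith)
  have h3 : Q ^ 2 * X ^ (ε / 8) ≤ H * X ^ (1 - ε / 8) := by
    calc Q ^ 2 * X ^ (ε / 8) ≤ H * X ^ (1 - ε) * X ^ (ε / 8) :=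
          mul_le_mul_of_nonneg_right hQH (Real.rpow_nonneg hX0.le _)
      _ = H * X ^ (1 - ε + ε / 8) := by rw [mul_assoc, hmul]
      _ ≤ H * X ^ (1 - ε / 8) := mul_le_mul_of_nonneg_left (hmono _ _ (by linarith)) hH0
  have hQ' : Q ≤ H * X ^ ((1 - ε) / 2) := by
    have h5 : Q ^ 2 ≤ (H * X ^ ((1 - ε) / 2)) ^ 2 := by
      calc Q ^ 2 ≤ H * X ^ (1 - ε) := hQH
        _ ≤ H ^ 2 * X ^ (1 - ε) := by
            refine mul_le_mul_of_nonneg_right ?_ (Real.rpow_nonneg hX0.le _)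
            nlinarith only [hH]
        _ = (H * X ^ ((1 - ε) / 2)) ^ 2 := by
            rw [mul_pow, ← Real.rpow_natCast (X ^ ((1 - ε) / 2)), ← Real.rpow_mul hX0.le]
            congr 2
            push_cast
            ring
    exact (pow_le_pow_iff_left₀ hQ0 (mul_nonneg hH0 (Real.rpow_nonneg hX0.le _))
      (by norm_num : (2 : ℕ) ≠ 0)).1 h5
  have h4 : Q * X ^ (1 / 2 + ε / 4) * X ^ (ε / 8) ≤ H * X ^ (1 - ε / 8) := by
    rw [mul_assoc, hmul]
    calc Q * X ^ (1 / 2 + ε / 4 + ε / 8)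
        ≤ H * X ^ ((1 - ε) / 2) * X ^ (1 / 2 + ε / 4 + ε / 8) :=
          mul_le_mul_of_nonneg_right hQ' (Real.rpow_nonneg hX0.le _)
      _ = H * X ^ ((1 - ε) / 2 + (1 / 2 + ε / 4 + ε / 8)) := by rw [mul_assoc, hmul]
      _ ≤ H * X ^ (1 - ε / 8) := mul_le_mul_of_nonneg_left (hmono _ _ (by linarith)) hH0
  calc (H + Q) * (X ^ (1 / 2 + ε / 4) + Q) * X ^ (ε / 8)
      = H * X ^ (1 / 2 + ε / 4) * X ^ (ε / 8) + H * Q * X ^ (ε / 8) +
        Q * X ^ (1 / 2 + ε / 4) * X ^ (ε / 8) + Q ^ 2 * X ^ (ε / 8) := by ring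
    _ ≤ _ := by linarith

theorem gtwo_om (θ ε : ℝ) (hθ : θ < 1) (hε : 0 < ε) (hε2 : ε ≤ 1 / 2) (hεθ : ε ≤ 1 - θ) (c : ℕ) :
    ∃ x0 : ℕ, ∀ x : ℕ, x0 ≤ x →
    ∀ N Q : ℕ, ∀ H : ℝ, ∀ S : ℕ → Finset ℕ, 1 ≤ N → N ≤ 2 * x → 1 ≤ Q →
      (Q : ℝ) ≤ (x : ℝ) ^ θ → 1 ≤ H → Fam x Q ε H S →
      (Q : ℝ) ^ 2 ≤ H * (x : ℝ) ^ (1 - ε) →
      ∑ q ∈ Ioc Q (2 * Q), ∑ a ∈ (S q).filter (fun a => Nat.Coprime a q),
        |Eom N q a| ≤ H * x / Real.log x ^ c := by
  obtain ⟨e, he⟩ : ∃ e : ℝ, e = ε := ⟨_, rfl⟩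
  have he0 : 0 < e := by rw [he]; exact hε
  have he1 : e ≤ 1 / 2 := by rw [he]; exact hε2
  obtain ⟨η, hη⟩ : ∃ η : ℝ, η = ε / 8 := ⟨_, rfl⟩
  have hη0 : 0 < η := by rw [hη]; linarith
  obtain ⟨B, x1, hmed⟩ := medium (e / 4) (by linarith) (c + 3)
  obtain ⟨x2, hsm⟩ := small_cond' B (c + 3)
  obtain ⟨C1, hC1, hA⟩ := sum_small_cond
  obtain ⟨C2, hC2, hB⟩ := sum_large_cond
  obtain ⟨C3, hC3, hC⟩ := large_msq
  have hlogt : Filter.Tendsto (fun x : ℕ => Real.log (x : ℝ)) Filter.atTop Filter.atTop :=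
    Real.tendsto_log_atTop.comp tendsto_natCast_atTop_atTop
  have hev : ∀ᶠ x : ℕ in Filter.atTop, x1 ≤ x ∧ x2 ≤ x ∧ 1 ≤ x ∧ 1 ≤ Real.log x ∧
      32 * C1 ≤ Real.log x ∧ 24 * C1 * Real.log x ^ (c + 2) ≤ (x : ℝ) ^ (1 - θ) ∧
      (576 * C2 * (8 * C3 + 1)) * Real.log x ^ (2 * c + 4) ≤ (x : ℝ) ^ η := by
    filter_upwards [Filter.eventually_ge_atTop x1, Filter.eventually_ge_atTop x2,
      Filter.eventually_ge_atTop 1, hlogt.eventually_ge_atTop 1,
      hlogt.eventually_ge_atTop (32 * C1), gtwoA_ev (24 * C1) (1 - θ) (c + 2) (by linarith),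
      gtwoA_ev (576 * C2 * (8 * C3 + 1)) η (2 * c + 4) hη0] with x a1 a2 a3 a4 a5 a6 a7
    exact ⟨a1, a2, a3, a4, a5, a6, a7⟩
  obtain ⟨x0, hx0⟩ := Filter.eventually_atTop.1 hev
  refine ⟨x0, fun x hx N Q H S hN hN2 hQ hQx hH1 hFam hQH => ?_⟩
  obtain ⟨hx1, hx2, hx3, hL1, hL2, hL3, hL4⟩ := hx0 x hx
  have hX1 : (1 : ℝ) ≤ x := by exact_mod_cast hx3
  have hX0 : (0 : ℝ) < x := by linarith
  have hQ1 : (1 : ℝ) ≤ Q := by exact_mod_cast hQ
  have hN1 : (1 : ℝ) ≤ N := by exact_mod_cast hN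
  have hN2' : (N : ℝ) ≤ 2 * x := by exact_mod_cast hN2
  have hH0 : (0 : ℝ) ≤ H := by linarith
  obtain ⟨L, hL⟩ : ∃ L : ℝ, L = Real.log x := ⟨_, rfl⟩
  rw [← hL] at hL1 hL2 hL3 hL4 ⊢
  have hL0 : 0 < L := by linarith
  have hlQ0 : 0 ≤ Real.log Q := Real.log_nonneg hQ1
  have hlN0 : 0 ≤ Real.log N := Real.log_nonneg hN1
  have hQX : (Q : ℝ) ≤ x := hQx.trans (by
    calc (x : ℝ) ^ θ ≤ (x : ℝ) ^ (1 : ℝ) := Real.rpow_le_rpow_of_exponent_le hX1 hθ.le
      _ = x := Real.rpow_one _)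
  have hlQ : 1 + Real.log Q ≤ 2 * L := by
    have := Real.log_le_log (by linarith) hQX
    rw [← hL] at this
    linarith
  have hlN : 1 + Real.log N ≤ 3 * L := by
    have h1 := Real.log_le_log (by linarith) hN2'
    rw [Real.log_mul (by norm_num) hX0.ne', ← hL] at h1
    have h2 : Real.log 2 ≤ 1 := by
      have := Real.log_two_lt_d9
      linarith
    linarith
  -- the level
  obtain ⟨Y0, hY0⟩ : ∃ Y0 : ℝ, Y0 = (x : ℝ) ^ (1 / 2 - e / 4) := ⟨_, rfl⟩
  have hY1 : 1 ≤ Y0 := by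
    rw [hY0]
    exact Real.one_le_rpow hX1 (by linarith)
  obtain ⟨D, hD⟩ : ∃ D : ℕ, D = ⌊Y0⌋₊ := ⟨_, rfl⟩
  have hD1 : 1 ≤ D := by
    rw [hD]
    exact Nat.le_floor (by exact_mod_cast hY1)
  have hDle : (D : ℝ) ≤ Y0 := by
    rw [hD]
    exact Nat.floor_le (by linarith)
  have hDge : Y0 / 2 ≤ D := by
    have h1 : Y0 < D + 1 := by rw [hD]; exact Nat.lt_floor_add_one Y0
    have h2 : (1 : ℝ) ≤ D := by exact_mod_cast hD1
    linarith
  have hDpos : (0 : ℝ) < D := by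
    have : (1 : ℝ) ≤ D := by exact_mod_cast hD1
    linarith
  -- splitting
  have hsplit : ∑ q ∈ Ioc Q (2 * Q), ∑ a ∈ (S q).filter (fun a => Nat.Coprime a q),
      |Eom N q a| ≤
      ∑ q ∈ Ioc Q (2 * Q), ∑ a ∈ (S q).filter (fun a => Nat.Coprime a q),
        gtwoA_E N q ((Nch q).filter (fun χ => χ.conductor ≤ D)) a +
      ∑ q ∈ Ioc Q (2 * Q), ∑ a ∈ (S q).filter (fun a => Nat.Coprime a q),
        gtwoA_E N q ((Nch q).filter (fun χ => D < χ.conductor)) a := by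
    rw [← Finset.sum_add_distrib]
    refine Finset.sum_le_sum fun q hq => ?_
    rw [← Finset.sum_add_distrib]
    refine Finset.sum_le_sum fun a ha => ?_
    rw [Finset.mem_Ioc] at hq
    exact gtwoA_split N q a D (by omega) (Finset.mem_filter.1 ha).2
  -- small conductors
  have hS : ∑ c' ∈ Ioc 1 D, (1 / (c'.totient : ℝ)) *
      ∑ ψ ∈ Pch c', ‖TT N 0 (fun n => ψ (n : ZMod c'))‖ ≤ 2 * (x / L ^ (c + 3)) := by
    refine (gtwoA_S _ (fun c' => by positivity) ⌊L ^ B⌋₊ D).trans ?_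
    have h1 := hsm x hx2 N hN hN2
    have h2 := hmed x hx1 N D hN hN2 (by rw [← hY0]; exact hDle)
    rw [← hL] at h1 h2
    linarith
  have hsmall : ∑ q ∈ Ioc Q (2 * Q), ∑ a ∈ (S q).filter (fun a => Nat.Coprime a q),
        gtwoA_E N q ((Nch q).filter (fun χ => χ.conductor ≤ D)) a ≤ H * x / L ^ c / 2 := by
    refine (gtwoA_small N Q D H S hFam.1).trans ?_
    have h1 := hA N Q D hN hQ hD1
    have h2 : C1 * (1 + Real.log Q) ^ 2 * (∑ c' ∈ Ioc 1 D, (1 / (c'.totient : ℝ)) *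
        ∑ ψ ∈ Pch c', ‖TT N 0 (fun n => ψ (n : ZMod c'))‖) ≤
        C1 * (2 * L) ^ 2 * (2 * (x / L ^ (c + 3))) := by
      refine mul_le_mul ?_ hS (Finset.sum_nonneg fun c' _ => by positivity) (by positivity)
      exact mul_le_mul_of_nonneg_left (pow_le_pow_left₀ (by linarith) hlQ 2) hC1.le
    have h3 : C1 * (2 * L) ^ 2 * (2 * (x / L ^ (c + 3))) ≤ x / L ^ c / 4 := by
      have h4 : C1 * (2 * L) ^ 2 * (2 * (x / L ^ (c + 3))) = (8 * C1 / L) * (x / L ^ c) := by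
        have hL' := hL0.ne'
        field_simp
        ring
      rw [h4]
      have h5 : 8 * C1 / L ≤ 1 / 4 := by
        rw [div_le_iff₀ hL0]
        linarith
      calc (8 * C1 / L) * (x / L ^ c) ≤ (1 / 4) * (x / L ^ c) :=
            mul_le_mul_of_nonneg_right h5 (by positivity)
        _ = x / L ^ c / 4 := by ring
    have h6 : C1 * Q * (1 + Real.log N) * (1 + Real.log Q) ≤ x / L ^ c / 4 := by
      have h7 : C1 * Q * (1 + Real.log N) * (1 + Real.log Q) ≤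
          C1 * (x : ℝ) ^ θ * (3 * L) * (2 * L) := by
        gcongr
      have h8 : C1 * (x : ℝ) ^ θ * (3 * L) * (2 * L) ≤ x / L ^ c / 4 := by
        rw [div_div, le_div_iff₀ (by positivity)]
        calc C1 * (x : ℝ) ^ θ * (3 * L) * (2 * L) * (L ^ c * 4) =
              (x : ℝ) ^ θ * (24 * C1 * L ^ (c + 2)) := by ring
          _ ≤ (x : ℝ) ^ θ * (x : ℝ) ^ (1 - θ) :=
              mul_le_mul_of_nonneg_left hL3 (Real.rpow_nonneg hX0.le _)
          _ = x := by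
              rw [← Real.rpow_add hX0, show θ + (1 - θ) = 1 by ring, Real.rpow_one]
      exact h7.trans h8
    calc (H : ℝ) * _ ≤ H * (x / L ^ c / 4 + x / L ^ c / 4) :=
          mul_le_mul_of_nonneg_left (by linarith) hH0
      _ = H * x / L ^ c / 2 := by ring
  -- large conductors
  have hlarge : ∑ q ∈ Ioc Q (2 * Q), ∑ a ∈ (S q).filter (fun a => Nat.Coprime a q),
        gtwoA_E N q ((Nch q).filter (fun χ => D < χ.conductor)) a ≤ H * x / L ^ c / 2 := by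
    have h1 := gtwoA_msq N Q D hQ S
    have h2 := hB N Q D hN hQ hD1
    have h3 := hC N Q D hN hQ hD1
    obtain ⟨Y, hY⟩ : ∃ Y : ℝ, Y = (x : ℝ) ^ (1 / 2 + e / 4) := ⟨_, rfl⟩
    have hYpos : 0 < Y := by rw [hY]; exact Real.rpow_pos_of_pos hX0 _
    have hND : (N : ℝ) / D ≤ 4 * Y := by
      rw [div_le_iff₀ hDpos]
      have h4 : Y * Y0 = x := by
        rw [hY, hY0, ← Real.rpow_add hX0, show (1 / 2 + e / 4) + (1 / 2 - e / 4) = (1 : ℝ) by ring,
          Real.rpow_one]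
      have h5 : 4 * Y * (Y0 / 2) ≤ 4 * Y * D := mul_le_mul_of_nonneg_left hDge (by positivity)
      have h6 : 4 * Y * (Y0 / 2) = 2 * x := by rw [← h4]; ring
      linarith only [hN2', h4, h5]
    have hlN9 : (1 + Real.log N) ^ 2 ≤ 9 * L ^ 2 := by
      calc (1 + Real.log N) ^ 2 ≤ (3 * L) ^ 2 := pow_le_pow_left₀ (by linarith) hlN 2
        _ = 9 * L ^ 2 := by ring
    have hlQ4 : (1 + Real.log Q) ^ 2 ≤ 4 * L ^ 2 := by
      calc (1 + Real.log Q) ^ 2 ≤ (2 * L) ^ 2 := pow_le_pow_left₀ (by linarith) hlQ 2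
        _ = 4 * L ^ 2 := by ring
    have h4 : C3 * ((N : ℝ) / D + Q) * N * (1 + Real.log N) ^ 2 ≤
        C3 * (4 * Y + Q) * (2 * x) * (9 * L ^ 2) := by
      gcongr
    have hG : ∑ q ∈ Ioc Q (2 * Q), (1 / (q.totient : ℝ)) *
        ∑ χ ∈ (Nch q).filter (fun χ => D < χ.conductor),
          ‖TT N 0 (fun n => χ (n : ZMod q))‖ ^ 2 ≤
        36 * C2 * (8 * C3 + 1) * L ^ 4 * (Y + Q) * x := by
      refine h2.trans ?_
      have h5 : C2 * (1 + Real.log Q) ^ 2 * (∑ c ∈ Ioc D (2 * Q), (1 / (c.totient : ℝ)) *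
            ∑ ψ ∈ Pch c, ‖TT N 0 (fun n => ψ (n : ZMod c))‖ ^ 2) ≤
          C2 * (4 * L ^ 2) * (C3 * (4 * Y + Q) * (2 * x) * (9 * L ^ 2)) := by
        refine mul_le_mul ?_ (h3.trans h4) (Finset.sum_nonneg fun c' _ => by positivity)
          (by positivity)
        exact mul_le_mul_of_nonneg_left hlQ4 hC2.le
      have h6 : C2 * Q * (1 + Real.log N) ^ 2 * (1 + Real.log Q) ^ 2 ≤
          C2 * Q * (9 * L ^ 2) * (4 * L ^ 2) := by gcongr
      have h7 : C2 * (4 * L ^ 2) * (C3 * (4 * Y + Q) * (2 * x) * (9 * L ^ 2)) +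
          C2 * Q * (9 * L ^ 2) * (4 * L ^ 2) =
          36 * C2 * L ^ 4 * (C3 * (8 * Y + 2 * Q) * x + Q) := by ring
      have h8 : C3 * (8 * Y + 2 * Q) * x + Q ≤ (8 * C3 + 1) * ((Y + Q) * x) := by
        have h9 : C3 * (8 * Y + 2 * Q) * x ≤ 8 * C3 * ((Y + Q) * x) := by
          have : C3 * (8 * Y + 2 * Q) * x ≤ C3 * (8 * Y + 8 * Q) * x := by
            gcongr
            norm_num
          linarith only [this]
        have h10 : (Q : ℝ) ≤ (Y + Q) * x := by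
          nlinarith only [hQ1, hQX, hYpos]
        linarith only [h9, h10]
      calc _ ≤ 36 * C2 * L ^ 4 * (C3 * (8 * Y + 2 * Q) * x + Q) := by
            rw [← h7]; exact add_le_add h5 h6
        _ ≤ 36 * C2 * L ^ 4 * ((8 * C3 + 1) * ((Y + Q) * x)) :=
            mul_le_mul_of_nonneg_left h8 (by positivity)
        _ = _ := by ring
    have hnum := gtwoA_num x H Q θ ε hX1 (by linarith only []) hQx hH1 hQH hε hε2 hεθ
    rw [← he, ← hY, he, ← hη] at hnum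
    have h5 : (∑ q ∈ Ioc Q (2 * Q), ∑ a ∈ (S q).filter (fun a => Nat.Coprime a q),
        gtwoA_E N q ((Nch q).filter (fun χ => D < χ.conductor)) a) ^ 2 ≤
        (H * x / L ^ c / 2) ^ 2 := by
      refine h1.trans ?_
      have hE := hFam.2
      rw [← hη] at hE
      calc _ ≤ ((Q * H + H ^ 2) * (x : ℝ) ^ η) *
            (36 * C2 * (8 * C3 + 1) * L ^ 4 * (Y + Q) * x) :=
            mul_le_mul hE hG (Finset.sum_nonneg fun q _ => by positivity) (by positivity)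
        _ = (H : ℝ) * (36 * C2 * (8 * C3 + 1) * L ^ 4 * x) * ((H + Q) * (Y + Q) * (x : ℝ) ^ η) := by
            ring
        _ ≤ (H : ℝ) * (36 * C2 * (8 * C3 + 1) * L ^ 4 * x) * (4 * (H * (x : ℝ) ^ (1 - η))) :=
            mul_le_mul_of_nonneg_left hnum (by positivity)
        _ = (H ^ 2 * x / (4 * L ^ (2 * c))) * ((576 * C2 * (8 * C3 + 1) * L ^ (2 * c + 4)) *
              (x : ℝ) ^ (1 - η)) := by
            have hL' := hL0.ne'
            field_simp
            ring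
        _ ≤ (H ^ 2 * x / (4 * L ^ (2 * c))) * ((x : ℝ) ^ η * (x : ℝ) ^ (1 - η)) := by
            refine mul_le_mul_of_nonneg_left ?_ (by positivity)
            exact mul_le_mul_of_nonneg_right hL4 (Real.rpow_nonneg hX0.le _)
        _ = (H * x / L ^ c / 2) ^ 2 := by
            rw [← Real.rpow_add hX0, show η + (1 - η) = 1 by ring, Real.rpow_one]
            have hL' := hL0.ne'
            field_simp
            ring
    exact (pow_le_pow_iff_left₀ (Finset.sum_nonneg fun q _ => Finset.sum_nonneg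
      fun a _ => gtwoA_E_nonneg _ _ _ _) (by positivity) (by norm_num : (2 : ℕ) ≠ 0)).1 h5
  calc _ ≤ H * x / L ^ c / 2 + H * x / L ^ c / 2 := hsplit.trans (add_le_add hsmall hlarge)
    _ = H * x / L ^ c := by ring

end Pool.Agent.H91.EHA
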